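import Pool.Agent.Helper65.NX.Final3

open Pool.Agent.Helper65.LinSpace Pool.Agent.Helper65.NX
open Pool.Agent.Helper81.Gen4 (Q)
open Pool.Agent.Helper31.Gen5 (Hard)
open Pool.Agent.Helper81.Sus2 (Decomp)

namespace Pool.Agent.Results.MP_c578c8_lc.Networks

/-- **Networks of processors.** Let `c` be a number. A uniform family of networks (`Net`) has a
network for every word `p`; its cells are the words `z` which are as long as `p`, and contain words.
In one step every cell reads the contents of a constant number of cells, one letter of the input word
and one letter of an additional word, and gets a new content. Which cells and letters are read, and the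
new content, are computed in linear space from the length of the input word, the time, `p`, `z` (and the
contents). There is a language `L` in `DSPACE(n)` which is hard (`Hard`) for all such networks within the
following bounds (`Net.Within`), and languages accepted by networks within these bounds are in
`DSPACE(n)`: there are at most `2^a` cells, `a = C n / log^2 n`, and the time is smaller than `2^a`; the
contents have at most `s` bits; for some `B` every cell depends, `B` steps back in time, on at most `V`
cells, where `V s ≤ C n / (log n log log n)`; and whenever the contents of all cells are not described
by `c n` bits at any time strictly between `t` and `t'`, then `t' - t ≤ C n B / (log n log log n)`. A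
description is a word from which a decompressor, which is chosen after `L`, computes the content of
every cell with a memory of `a` bits. For example:

* Circuits with gates of unbounded fan-in (`Circ`): a gate reads the values of all gates before it, one
  after the other, with a memory of `s` bits, and gives a value of at most `s` bits. Here `V = B + 1`, and
  the bound is `C n^2 / log^4 n` gates for `s = O(log n)`, or so many gates between cuts at which the
  states of the later gates are described by `c n` bits.
* Cellular automata on `ℤ^D` for every `D ≥ 1`, which accept in time `C n^(1 + 1/D) / log^3 n`. Here
  `V = (2 B + 1)^D`.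

`Hard L c` for a machine (`Acc`: it accepts, `Good`: it accepts within the bounds) means:

* On average: there is a `c'` such that for `M = L` and for `M` the complement of `L`, for all `n` and all
  advice words `α`, of any length, the machine is correct within the bounds on at most
  `2^n / 2 + c' (|α| + 1) 2^((n + |α| / c) / 2)` words of length `n`. So `L` is hard even with `(c - ε) n` bits
  of advice.
* Relative to the errors: if the machine accepts `e` words of length `n` which are not in `M`, then it
  accepts within the bounds at most `(√e + c' (|α| + 1) 2^(|α| / (2 c)))^2` words of length `n` in `M`.
* Almost everywhere: if the machine without advice accepts only finitely many words which are not in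
  `M`, then it accepts only finitely many words within the bounds.

The additional word is the advice word, or, with the acceptance condition `Q`, the advice word and a word
of `3 c n` guessed letters: `Q` has `c n` letters with alternating quantifiers, then a majority over `c n`
letters, then again `c n` letters with alternating quantifiers. So it covers `c n` random letters with
two-sided error, nondeterminism, alternation, and the combinations in the classes `MA` and `AM`. -/
theorem result (c : ℕ) (hc : 0 < c) :
    (∀ (A : Net) (E : Decomp) (L : Set (List Bool)) (C : ℝ),
      (∀ w, Q (c * w.length) (fun v => ∃ p r, A.AcceptsAt w v p r) → w ∈ L) →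
      (∀ w ∈ L, Q (c * w.length) (A.Within E c C w)) → DLINSPACE L) ∧
    ∃ L : Set (List Bool), DLINSPACE L ∧
      (∀ (A : Net) (E : Decomp) (C : ℝ),
        Hard L c (fun w α => ∃ p r, A.AcceptsAt w α p r) (fun w α => A.Within E c C w α) ∧
        Hard L c (fun w α => Q (c * w.length) fun v => ∃ p r, A.AcceptsAt w (α ++ v) p r)
          (fun w α => Q (c * w.length) fun v => A.Within E c C w (α ++ v))) ∧
      (∀ (A : Pool.Agent.Helper65.HC.Circ) (E : Decomp) (C : ℝ),
        Hard L c (fun w α => ∃ r, A.AcceptsAt w α r)
          (fun w α => Pool.Agent.Helper65.HCS.Within A E c C w α) ∧
        Hard L c (fun w α => Q (c * w.length) fun v => ∃ r, A.AcceptsAt w (α ++ v) r)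
          (fun w α => Q (c * w.length) fun v =>
            Pool.Agent.Helper65.HCS.Within A E c C w (α ++ v))) ∧
      ∀ (D : ℕ) [NeZero D] (A : CA D) (C : ℝ),
        Hard L c (fun w α => ∃ t, A.config w α t 0 ∈ A.accept)
          (fun w α => ∃ t : ℕ, (t : ℝ) ≤ C * ((w.length : ℝ) + 1) ^ (1 + 1 / (D : ℝ)) /
              ((Nat.log 2 w.length : ℝ) + 1) ^ 3 ∧ A.config w α t 0 ∈ A.accept) ∧
        Hard L c (fun w α => Q (c * w.length) fun v => ∃ t, A.config w (α ++ v) t 0 ∈ A.accept)
          (fun w α => Q (c * w.length) fun v => ∃ t : ℕ,
            (t : ℝ) ≤ C * ((w.length : ℝ) + 1) ^ (1 + 1 / (D : ℝ)) /
              ((Nat.log 2 w.length : ℝ) + 1) ^ 3 ∧ A.config w (α ++ v) t 0 ∈ A.accept) :=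
  networks3 c hc

end Pool.Agent.Results.MP_c578c8_lc.Networks
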